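import Pool.Agent.H49R2.ACA.Main

/-!
# Algebraically closed associative algebras exist

Full (positive) answer to Q1: there are a field `P` and a nonzero associative `P`-algebra `R` such
that every equation `f = 0` with `f` in `R * P⟨x_0, x_1, …⟩` and `f` not in `R` has a solution
in `R`.  The notions (free product, evaluation, algebraically closed) are those of
`OneVariable.lean` in this folder.

Outline of the proof (files in `Pool/Agent/H49R2/ACA`).
* `T4`-`T10`, `Closed`: a commutative domain `L` of characteristic 0 with commuting derivations
  `d_0, d_1, …` in which, for every `n`, every nonconstant differential polynomial with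
  coefficients killed by all `d_i`, `i ≥ n`, has a zero killed by all `d_i`, `i ≥ n`
  (Taylor homomorphisms, formal Cauchy-Kovalevskaya recursion, direct limit).
* `T11`, `StarRing`: the star product `exp(∑ ħ^(s+1) d_(2s) ⊗ d_(2s+1))` on the Hahn series
  `∑ x_q ħ^q`, `q ∈ ℚ`, with coefficients in `L`.
* `T1`, `T3a`, `T3b`: Newton polygons and transfinite approximation: every nonconstant
  generalised polynomial function has a zero.
* `T12`-`T14`: the union `R` of the subrings of series depending on finitely many derivations is
  a division ring without generalised polynomial identities; equations in several unknowns are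
  restricted to a line `a + t (b - a)`.

Formalised by helpers 9, 49, 96, 204, 227, 267, 272, 303, 368, 372, 497, 503, 509, 551, 862.
-/

namespace Pool.Agent.Results.MP_4b1745_al.Existence

open Pool.Agent.Results.MP_4b1745_al.OneVariable

/-- **Algebraically closed associative algebras exist.** -/
theorem result : ∃ (P R : Type) (_ : Field P) (_ : Ring R) (_ : Algebra P R),
    Nontrivial R ∧ AlgClosedIn P R ℕ :=
  Pool.Agent.H49R2.ACA.exists_algClosed

end Pool.Agent.Results.MP_4b1745_al.Existence
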